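import Pool.Agent.MWGQ.Stmts

/-!
# MWGQ, row NOR (MP_23468a_al): the exponents of the normal form
-/

namespace Pool.Agent.MWGQ.H5

open Pool.Agent.MWGN (Nm WC WT Tau Ns nl sg nn)

theorem cf0 (l : List ℕ) (g : ℕ → List ℕ) (c : ℕ) (h : ∀ r ∈ l, (g r).count c = 0) :
    (l.flatMap g).count c = 0 := by
  induction l with
  | nil => simp
  | cons a l ih =>
    rw [List.flatMap_cons, List.count_append, h a (by simp),
      ih (fun r hr => h r (List.mem_cons_of_mem _ hr))]

theorem cf (l : List ℕ) (g : ℕ → List ℕ) (c r0 v : ℕ) (hn : l.Nodup) (hm : r0 ∈ l)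
    (h0 : (g r0).count c = v) (h1 : ∀ r ∈ l, r ≠ r0 → (g r).count c = 0) :
    (l.flatMap g).count c = v := by
  induction l with
  | nil => simp at hm
  | cons a l ih =>
    rw [List.nodup_cons] at hn
    rw [List.flatMap_cons, List.count_append]
    rcases List.mem_cons.1 hm with h | h
    · subst h
      rw [h0, cf0 l g c (fun r hr => h1 r (List.mem_cons_of_mem _ hr) (by
        rintro rfl
        exact hn.1 hr))]
      omega
    · rw [ih hn.2 h (fun r hr => h1 r (List.mem_cons_of_mem _ hr)), h1 a (by simp) (by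
        rintro rfl
        exact hn.1 h)]
      omega

theorem nor : NorStmt := by
  intro ν τ m hτ hnd w P i j e f hP hw
  obtain ⟨hτn, hτm⟩ := hτ
  have hcnt : ∀ c, c ∈ nl ν m → w.count c =
      P.count c + (([ν.a] : List ℕ).count c + ((List.replicate i ν.x).count c +
      (((List.range m).flatMap (fun r => ν.L r :: List.replicate (e r) (ν.C r))).count c +
        (([ν.L m] : List ℕ).count c + ((List.replicate j ν.y).count c + (([ν.b] : List ℕ).count c +
          (τ.flatMap (fun r => ν.S r :: List.replicate (f r) (ν.L r))).count c)))))) := by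
    intro c hc
    have h1 : (w.filter (fun c => decide (c ∈ nl ν m))).count c = w.count c :=
      List.count_filter (by simpa using hc)
    rw [← h1, hw]
    have e1 : ∀ (a : ℕ) (l : List ℕ), (a :: l).count c = ([a] : List ℕ).count c + l.count c := by
      intro a l
      rw [← List.singleton_append, List.count_append]
    rw [List.count_append, e1 ν.a, List.count_append, List.count_append, e1 (ν.L m),
      List.count_append, e1 ν.b]
  have hnd' := hnd
  unfold nl at hnd'
  simp only [List.nodup_cons, List.nodup_append, List.mem_cons, List.mem_append, List.mem_map,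
    List.mem_range, not_or, not_exists, not_and] at hnd'
  obtain ⟨⟨hxy, hxa, hxb, hxS, hxL, hxC⟩, ⟨hya, hyb, hyS, hyL, hyC⟩, ⟨hab, haS, haL, haC⟩,
    ⟨hbS, hbL, hbC⟩, hSS, ⟨hLL, hCC, hLC⟩, hSLC⟩ := hnd'
  have hS1 : ∀ r, r ≤ m → ν.S r ≠ ν.x ∧ ν.S r ≠ ν.y := fun r hr =>
    ⟨hxS r (by omega), hyS r (by omega)⟩
  have hL1 : ∀ r, r ≤ m → ν.L r ≠ ν.x ∧ ν.L r ≠ ν.y ∧ ν.a ≠ ν.L r ∧ ν.b ≠ ν.L r := fun r hr =>
    ⟨hxL r (by omega), hyL r (by omega), fun h => haL r (by omega) h.symm,
      fun h => hbL r (by omega) h.symm⟩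
  have hC1 : ∀ r, r < m → ν.C r ≠ ν.x ∧ ν.C r ≠ ν.y ∧ ν.a ≠ ν.C r ∧ ν.b ≠ ν.C r := fun r hr =>
    ⟨hxC r hr, hyC r hr, fun h => haC r hr h.symm, fun h => hbC r hr h.symm⟩
  have hSL1 : ∀ r, r ≤ m → ∀ r', r' ≤ m → ν.S r ≠ ν.L r' := fun r hr r' hr' =>
    hSLC _ ⟨r, by omega, rfl⟩ _ (Or.inl ⟨r', by omega, rfl⟩)
  have hSC1 : ∀ r, r ≤ m → ∀ r', r' < m → ν.S r ≠ ν.C r' := fun r hr r' hr' =>
    hSLC _ ⟨r, by omega, rfl⟩ _ (Or.inr ⟨r', hr', rfl⟩)
  have hLC1 : ∀ r, r ≤ m → ∀ r', r' < m → ν.L r ≠ ν.C r' := fun r hr r' hr' =>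
    hLC _ ⟨r, by omega, rfl⟩ _ ⟨r', hr', rfl⟩
  have hLi : ∀ r, r ≤ m → ∀ r', r' ≤ m → ν.L r = ν.L r' → r = r' := fun r hr r' hr' h =>
    List.inj_on_of_nodup_map hLL (List.mem_range.2 (by omega)) (List.mem_range.2 (by omega)) h
  have hCi : ∀ r, r < m → ∀ r', r' < m → ν.C r = ν.C r' → r = r' := fun r hr r' hr' h =>
    List.inj_on_of_nodup_map hCC (List.mem_range.2 hr) (List.mem_range.2 hr') h
  have hsg : ∀ a c : ℕ, a ≠ c → ([a] : List ℕ).count c = 0 := by
    intro a c h
    exact List.count_eq_zero.2 (by simpa using Ne.symm h)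
  have hrp : ∀ (k a c : ℕ), a ≠ c → (List.replicate k a).count c = 0 := by
    intro k a c h
    exact List.count_eq_zero.2 (fun hm => h (List.eq_of_mem_replicate hm).symm)
  have hcc : ∀ (k a b c : ℕ), (a :: List.replicate k b).count c =
      ([a] : List ℕ).count c + (List.replicate k b).count c := by
    intro k a b c
    rw [← List.singleton_append, List.count_append]
  have hPc : ∀ c, P.count c = ([ν.x] : List ℕ).count c + ([ν.y] : List ℕ).count c := by
    intro c
    rcases hP with h | h <;> subst h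
    · rw [← List.singleton_append, List.count_append]
    · rw [← List.singleton_append, List.count_append, Nat.add_comm]
  refine ⟨?_, ?_, ?_, ?_⟩
  · rw [hcnt ν.x (by simp [nl]), hPc, hsg ν.a ν.x (Ne.symm hxa), hsg ν.b ν.x (Ne.symm hxb),
      hsg (ν.L m) ν.x (hL1 m le_rfl).1, hsg ν.y ν.x (Ne.symm hxy), hrp j ν.y ν.x (Ne.symm hxy),
      List.count_replicate_self, List.count_singleton_self,
      cf0 _ _ ν.x (fun r hr => by
        rw [List.mem_range] at hr
        rw [hcc, hsg _ _ (hL1 r (by omega)).1, hrp _ _ _ (hC1 r hr).1]),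
      cf0 _ _ ν.x (fun r hr => by
        have hr' := (hτm r).1 hr
        rw [hcc, hsg _ _ (hS1 r hr').1, hrp _ _ _ (hL1 r hr').1])]
    omega
  · rw [hcnt ν.y (by simp [nl]), hPc, hsg ν.a ν.y (Ne.symm hya), hsg ν.b ν.y (Ne.symm hyb),
      hsg (ν.L m) ν.y (hL1 m le_rfl).2.1, hsg ν.x ν.y hxy, hrp i ν.x ν.y hxy,
      List.count_replicate_self, List.count_singleton_self,
      cf0 _ _ ν.y (fun r hr => by
        rw [List.mem_range] at hr
        rw [hcc, hsg _ _ (hL1 r (by omega)).2.1, hrp _ _ _ (hC1 r hr).2.1]),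
      cf0 _ _ ν.y (fun r hr => by
        have hr' := (hτm r).1 hr
        rw [hcc, hsg _ _ (hS1 r hr').2, hrp _ _ _ (hL1 r hr').2.1])]
    omega
  · intro r0 hr0
    obtain ⟨c1, c2, c3, c4⟩ := hC1 r0 hr0
    rw [hcnt (ν.C r0) (by
        simp only [nl, List.mem_cons, List.mem_append, List.mem_map, List.mem_range]
        exact Or.inr (Or.inr (Or.inr (Or.inr (Or.inr (Or.inr ⟨r0, hr0, rfl⟩)))))), hPc,
      hsg ν.x _ (Ne.symm c1), hsg ν.y _ (Ne.symm c2), hsg ν.a _ c3, hsg ν.b _ c4,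
      hsg (ν.L m) _ (hLC1 m le_rfl r0 hr0), hrp i ν.x _ (Ne.symm c1), hrp j ν.y _ (Ne.symm c2),
      cf _ _ (ν.C r0) r0 (e r0) List.nodup_range (List.mem_range.2 hr0) (by
        rw [hcc, hsg _ _ (hLC1 r0 (by omega) r0 hr0), List.count_replicate_self, Nat.zero_add])
        (fun r hr hne => by
          rw [List.mem_range] at hr
          rw [hcc, hsg _ _ (hLC1 r (by omega) r0 hr0),
            hrp _ _ _ (fun h => hne (hCi r hr r0 hr0 h))]),
      cf0 _ _ (ν.C r0) (fun r hr => by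
        have hr' := (hτm r).1 hr
        rw [hcc, hsg _ _ (hSC1 r hr' r0 hr0), hrp _ _ _ (hLC1 r hr' r0 hr0)])]
    omega
  · intro r0 hr0
    obtain ⟨c1, c2, c3, c4⟩ := hL1 r0 hr0
    have hB : (τ.flatMap (fun r => ν.S r :: List.replicate (f r) (ν.L r))).count (ν.L r0) =
        f r0 := by
      refine cf _ _ (ν.L r0) r0 (f r0) hτn ((hτm r0).2 hr0) ?_ ?_
      · rw [hcc, hsg _ _ (hSL1 r0 hr0 r0 hr0), List.count_replicate_self, Nat.zero_add]
      · intro r hr hne
        have hr' := (hτm r).1 hr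
        rw [hcc, hsg _ _ (hSL1 r hr' r0 hr0), hrp _ _ _ (fun h => hne (hLi r hr' r0 hr0 h))]
    have hA : ((List.range m).flatMap
        (fun r => ν.L r :: List.replicate (e r) (ν.C r))).count (ν.L r0) +
        ([ν.L m] : List ℕ).count (ν.L r0) = 1 := by
      rcases Nat.lt_or_ge r0 m with h | h
      · rw [hsg (ν.L m) _ (fun h' => absurd (hLi m le_rfl r0 hr0 h') (by omega)),
          cf _ _ (ν.L r0) r0 1 List.nodup_range (List.mem_range.2 h) (by
            rw [hcc, List.count_singleton_self, hrp _ _ _ (Ne.symm (hLC1 r0 hr0 r0 h))])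
            (fun r hr hne => by
              rw [List.mem_range] at hr
              rw [hcc, hsg _ _ (fun h' => hne (hLi r (by omega) r0 hr0 h')),
                hrp _ _ _ (Ne.symm (hLC1 r0 hr0 r hr))])]
      · have : r0 = m := by omega
        subst this
        rw [List.count_singleton_self, cf0 _ _ (ν.L r0) (fun r hr => by
          rw [List.mem_range] at hr
          rw [hcc, hsg _ _ (fun h' => absurd (hLi r (by omega) r0 le_rfl h') (by omega)),
            hrp _ _ _ (Ne.symm (hLC1 r0 hr0 r hr))])]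
    rw [hcnt (ν.L r0) (by
        simp only [nl, List.mem_cons, List.mem_append, List.mem_map, List.mem_range]
        exact Or.inr (Or.inr (Or.inr (Or.inr (Or.inr (Or.inl ⟨r0, by omega, rfl⟩)))))), hPc,
      hsg ν.x _ (Ne.symm c1), hsg ν.y _ (Ne.symm c2), hsg ν.a _ c3, hsg ν.b _ c4,
      hrp i ν.x _ (Ne.symm c1), hrp j ν.y _ (Ne.symm c2), hB]
    omega

end Pool.Agent.MWGQ.H5
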